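import Pool.Agent.X234.OT.Upper

/-!
# Codes of configurations
-/

namespace Pool.Agent.X234.OT

open Classical

noncomputable section

/-- keys -/
abbrev Key : Type := Bool × Bool × Bool

/-- the type of codes, with `K` removed points -/
abbrev Code (K n : ℕ) : Type :=
  (Fin K → Fin n) × (Fin n → Bool) × (Fin K → Fin K → Fin n → SignType) ×
    (Fin K → (Fin n → Key) × (Key → Bool) × (Key → Finset (Fin n)))

/-- the kept indices with a given key -/
def cell {K n : ℕ} (d : Code K n) (i : Fin K) (x : Key) : Set (Fin n) :=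
  {a | (∀ j, d.1 j ≠ a) ∧ (d.2.2.2 i).1 a = x}

/-- `s` (sorted by first coordinate) is coded by `d` -/
def Codes {K n : ℕ} (s : Fin n → ℝ × ℝ) (d : Code K n) : Prop :=
  (∀ a b : Fin n, a < b → (s a).1 < (s b).1) ∧
  (∀ a b c : Fin n, (∀ j, d.1 j ≠ a) → (∀ j, d.1 j ≠ b) → (∀ j, d.1 j ≠ c) → a < b → b < c →
    orient (s a) (s b) (s c) = if d.2.1 b = true then 1 else -1) ∧
  (∀ i j a, orient (s (d.1 i)) (s (d.1 j)) (s a) = d.2.2.1 i j a) ∧
  (∀ i, ∃ ρ : Fin n → Fin n, (∀ a b, ρ a < ρ b ↔ slp (s (d.1 i)) (s a) < slp (s (d.1 i)) (s b)) ∧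
    ∀ x : Key, MonoB ((d.2.2.2 i).2.1 x) ρ (cell d i x) ∧
      ρ '' (cell d i x) = ((d.2.2.2 i).2.2 x : Set (Fin n)))

/-- sorted triples determine everything -/
theorem eq_of_sorted {n : ℕ} (F G : Fin n → Fin n → Fin n → SignType) (T : Fin n → Prop)
    (hFs : ∀ a b c, F a c b = - F a b c) (hGs : ∀ a b c, G a c b = - G a b c)
    (hFr : ∀ a b c, F b c a = F a b c) (hGr : ∀ a b c, G b c a = G a b c)
    (hF0 : ∀ a b, F a a b = 0) (hG0 : ∀ a b, G a a b = 0)
    (h1 : ∀ a b c, T a → F a b c = G a b c)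
    (h2 : ∀ a b c, ¬ T a → ¬ T b → ¬ T c → a < b → b < c → F a b c = G a b c) :
    ∀ a b c, F a b c = G a b c := by
  intro a b c
  by_cases ha : T a
  · exact h1 a b c ha
  by_cases hb : T b
  · rw [← hFr, ← hGr]; exact h1 b c a hb
  by_cases hc : T c
  · rw [hFr c a b |>.symm.symm, hGr c a b |>.symm.symm]; exact h1 c a b hc
  -- all kept
  rcases lt_trichotomy a b with hab | hab | hab
  · rcases lt_trichotomy b c with hbc | hbc | hbc
    · exact h2 a b c ha hb hc hab hbc
    · subst hbc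
      have e1 : F a b b = 0 := by rw [← hFr]; exact hF0 b a
      have e2 : G a b b = 0 := by rw [← hGr]; exact hG0 b a
      rw [e1, e2]
    · rcases lt_trichotomy a c with hac | hac | hac
      · have := h2 a c b ha hc hb hac hbc
        rw [hFs, hGs] at this
        exact neg_injective this
      · subst hac
        have e1 : F a b a = 0 := by rw [hFr a a b |>.symm.symm]; exact hF0 a b
        have e2 : G a b a = 0 := by rw [hGr a a b |>.symm.symm]; exact hG0 a b
        rw [e1, e2]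
      · have := h2 c a b hc ha hb hac hab
        rw [hFr c a b |>.symm.symm, hGr c a b |>.symm.symm]
        exact this
  · subst hab; rw [hF0, hG0]
  · rcases lt_trichotomy a c with hac | hac | hac
    · have := h2 b a c hb ha hc hab hac
      have e1 : F a b c = - F b a c := by rw [← hFr a b c, hFs b a c]
      have e2 : G a b c = - G b a c := by rw [← hGr a b c, hGs b a c]
      rw [e1, e2, this]
    · subst hac
      have e1 : F a b a = 0 := by rw [hFr a a b |>.symm.symm]; exact hF0 a b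
      have e2 : G a b a = 0 := by rw [hGr a a b |>.symm.symm]; exact hG0 a b
      rw [e1, e2]
    · rcases lt_trichotomy b c with hbc | hbc | hbc
      · have := h2 b c a hb hc ha hbc hac
        rw [hFr, hGr] at this
        exact this
      · subst hbc
        have e1 : F a b b = 0 := by rw [← hFr]; exact hF0 b a
        have e2 : G a b b = 0 := by rw [← hGr]; exact hG0 b a
        rw [e1, e2]
      · have := h2 c b a hc hb ha hbc hab
        have e1 : F c b a = - F a b c := by rw [hFs c a b, hFr c a b |>.symm]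
        have e2 : G c b a = - G a b c := by rw [hGs c a b, hGr c a b |>.symm]
        rw [e1, e2] at this
        exact neg_injective this

theorem sign_sub_congr {x y x' y' : ℝ} (h1 : x < y ↔ x' < y') (h2 : y < x ↔ y' < x') :
    SignType.sign (y - x) = SignType.sign (y' - x') := by
  rcases lt_trichotomy x y with h | h | h
  · rw [sign_pos (by linarith), sign_pos (by linarith [h1.mp h])]
  · have : x' = y' := by
      rcases lt_trichotomy x' y' with h' | h' | h'
      · exact absurd (h1.mpr h') (by rw [h]; exact lt_irrefl _)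
      · exact h'
      · exact absurd (h2.mpr h') (by rw [h]; exact lt_irrefl _)
    rw [h, this, sub_self, sub_self]
  · rw [sign_neg (by linarith), sign_neg (by linarith [h2.mp h])]

theorem orient_self (p r : ℝ × ℝ) : orient p p r = 0 := by
  unfold orient det3; simp

theorem codes_eq {K n : ℕ} {s s' : Fin n → ℝ × ℝ} {d : Code K n} (h : Codes s d)
    (h' : Codes s' d) : ∀ a b c, orient (s a) (s b) (s c) = orient (s' a) (s' b) (s' c) := by
  obtain ⟨hx, hl, he, hr⟩ := h
  obtain ⟨hx', hl', he', hr'⟩ := h'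
  have hiff : ∀ a b : Fin n, (s a).1 < (s b).1 ↔ (s' a).1 < (s' b).1 := by
    intro a b
    rcases lt_trichotomy a b with hab | hab | hab
    · exact ⟨fun _ => hx' _ _ hab, fun _ => hx _ _ hab⟩
    · subst hab; exact ⟨fun h => absurd h (lt_irrefl _), fun h => absurd h (lt_irrefl _)⟩
    · exact ⟨fun h => absurd h (lt_asymm (hx _ _ hab)), fun h => absurd h (lt_asymm (hx' _ _ hab))⟩
  apply eq_of_sorted (fun a b c => orient (s a) (s b) (s c))
    (fun a b c => orient (s' a) (s' b) (s' c)) (fun a => ∃ j, d.1 j = a)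
  · intro a b c; exact orient_swap _ _ _
  · intro a b c; exact orient_swap _ _ _
  · intro a b c; exact orient_rot _ _ _
  · intro a b c; exact orient_rot _ _ _
  · intro a b; exact orient_self _ _
  · intro a b; exact orient_self _ _
  · rintro a b c ⟨i, rfl⟩
    by_cases hb : ∃ j, d.1 j = b
    · obtain ⟨j, rfl⟩ := hb
      rw [he, he']
    by_cases hc : ∃ j, d.1 j = c
    · obtain ⟨j, rfl⟩ := hc
      rw [orient_swap, orient_swap (s' _), he, he']
    push Not at hb hc
    obtain ⟨ρ, hρ, hR⟩ := hr i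
    obtain ⟨ρ', hρ', hR'⟩ := hr' i
    have hrec : ∀ a : Fin n, (∀ j, d.1 j ≠ a) → ρ a = ρ' a := by
      intro a ha
      have h1 := hR ((d.2.2.2 i).1 a)
      have h2 := hR' ((d.2.2.2 i).1 a)
      exact recover_mono h1.1 h2.1 (h1.2.trans h2.2.symm) a ⟨ha, rfl⟩
    have hne : ∀ (s : Fin n → ℝ × ℝ), (∀ a b : Fin n, a < b → (s a).1 < (s b).1) →
        ∀ a : Fin n, (∀ j, d.1 j ≠ a) → (s a).1 - (s (d.1 i)).1 ≠ 0 := by
      intro s hx a ha h0
      rcases lt_trichotomy a (d.1 i) with h | h | h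
      · have := hx _ _ h; linarith
      · exact ha i h.symm
      · have := hx _ _ h; linarith
    unfold orient
    rw [det3_slp (hne s hx b hb) (hne s hx c hc), det3_slp (hne s' hx' b hb) (hne s' hx' c hc)]
    rw [sign_mul, sign_mul, sign_mul, sign_mul ((s' b).1 - (s' (d.1 i)).1)]
    rw [sign_sub_congr (hiff (d.1 i) b) (hiff b (d.1 i)),
      sign_sub_congr (hiff (d.1 i) c) (hiff c (d.1 i))]
    congr 1
    apply sign_sub_congr
    · rw [← hρ, ← hρ', hrec b hb, hrec c hc]
    · rw [← hρ, ← hρ', hrec b hb, hrec c hc]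
  · intro a b c ha hb hc hab hbc
    rw [hl a b c (fun j h => ha ⟨j, h⟩) (fun j h => hb ⟨j, h⟩) (fun j h => hc ⟨j, h⟩) hab hbc,
      hl' a b c (fun j h => ha ⟨j, h⟩) (fun j h => hb ⟨j, h⟩) (fun j h => hc ⟨j, h⟩) hab hbc]

/-- every sorted configuration with few deletions to convex position has a code -/
theorem exists_codes {K n : ℕ} (s : Fin n → ℝ × ℝ)
    (hx : ∀ a b : Fin n, a < b → (s a).1 < (s b).1) (τ : Fin K → Fin n)
    (hcp : ∀ a : Fin n, (∀ j, τ j ≠ a) →
      s a ∉ convexHull ℝ {p | ∃ b : Fin n, (∀ j, τ j ≠ b) ∧ b ≠ a ∧ p = s b}) :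
    ∃ d : Code K n, Codes s d := by
  -- label
  let L : Fin n → Bool := fun b => decide (∃ a c : Fin n, (∀ j, τ j ≠ a) ∧ (∀ j, τ j ≠ c) ∧
    a < b ∧ b < c ∧ 0 < det3 (s a) (s b) (s c))
  have hne : ∀ a b c : Fin n, (∀ j, τ j ≠ a) → (∀ j, τ j ≠ b) → (∀ j, τ j ≠ c) → a < b → b < c →
      ∀ a' c' : Fin n, (∀ j, τ j ≠ a') → (∀ j, τ j ≠ c') → a' < b → b < c' →
      0 ≤ det3 (s a) (s b) (s c) → det3 (s a') (s b) (s c') ≤ 0 → False := by
    intro a b c ha hb hc hab hbc a' c' ha' hc' hab' hbc' h h'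
    exact cp_sign (hcp b hb) (a := s a) (c := s c) (a' := s a') (c' := s c')
      ⟨a, ha, hab.ne, rfl⟩ ⟨c, hc, hbc.ne', rfl⟩ ⟨a', ha', hab'.ne, rfl⟩ ⟨c', hc', hbc'.ne', rfl⟩
      (hx _ _ hab) (hx _ _ hbc) (hx _ _ hab') (hx _ _ hbc') h h'
  have hL : ∀ a b c : Fin n, (∀ j, τ j ≠ a) → (∀ j, τ j ≠ b) → (∀ j, τ j ≠ c) → a < b → b < c →
      (L b = true → 0 < det3 (s a) (s b) (s c)) ∧ (L b = false → det3 (s a) (s b) (s c) < 0) := by
    intro a b c ha hb hc hab hbc
    constructor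
    · intro h
      simp only [L, decide_eq_true_eq] at h
      obtain ⟨a', c', ha', hc', hab', hbc', hpos⟩ := h
      by_contra hcon
      push Not at hcon
      exact hne a' b c' ha' hb hc' hab' hbc' a c ha hc hab hbc hpos.le hcon
    · intro h
      simp only [L, decide_eq_false_iff_not, not_exists] at h
      have h1 : ¬ (0 < det3 (s a) (s b) (s c)) := fun h2 => h a c ⟨ha, hc, hab, hbc, h2⟩
      push Not at h1
      rcases lt_or_eq_of_le h1 with h2 | h2
      · exact h2
      · exact absurd (hne a b c ha hb hc hab hbc a c ha hc hab hbc h2.ge h1) id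
  -- per removed point
  have hper : ∀ i : Fin K, ∃ e : (Fin n → Key) × (Key → Bool) × (Key → Finset (Fin n)),
      ∃ ρ : Fin n → Fin n, (∀ a b, ρ a < ρ b ↔ slp (s (τ i)) (s a) < slp (s (τ i)) (s b)) ∧
      ∀ x : Key, MonoB (e.2.1 x) ρ {a | (∀ j, τ j ≠ a) ∧ e.1 a = x} ∧
        ρ '' {a | (∀ j, τ j ≠ a) ∧ e.1 a = x} = (e.2.2 x : Set (Fin n)) := by
    intro i
    obtain ⟨ρ, hρ⟩ := exists_rank (fun a => slp (s (τ i)) (s a))
    have hsplit : ∀ ℓ σ : Bool, ∃ u : Fin n → Bool, ∃ D : Bool → Bool, ∀ t,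
        MonoB (D t) (fun a => slp (s (τ i)) (s a))
          {a | a ∈ {a : Fin n | (∀ j, τ j ≠ a) ∧ L a = ℓ ∧ decide (τ i < a) = σ} ∧ u a = t} := by
      intro ℓ σ
      apply split_either
      have hq : ∀ a b c : Fin n,
          a ∈ {a : Fin n | (∀ j, τ j ≠ a) ∧ L a = ℓ ∧ decide (τ i < a) = σ} →
          b ∈ {a : Fin n | (∀ j, τ j ≠ a) ∧ L a = ℓ ∧ decide (τ i < a) = σ} →
          c ∈ {a : Fin n | (∀ j, τ j ≠ a) ∧ L a = ℓ ∧ decide (τ i < a) = σ} → a < b → b < c →
          (σ = ℓ → slp (s (τ i)) (s a) ≤ slp (s (τ i)) (s b) →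
            slp (s (τ i)) (s c) ≤ slp (s (τ i)) (s b) → False) ∧
          (σ ≠ ℓ → slp (s (τ i)) (s b) ≤ slp (s (τ i)) (s a) →
            slp (s (τ i)) (s b) ≤ slp (s (τ i)) (s c) → False) := by
        rintro a b c ⟨ha, haL, haσ⟩ ⟨hb, hbL, hbσ⟩ ⟨hc, hcL, hcσ⟩ hab hbc
        refine slp_quasi (hx _ _ hab) (hx _ _ hbc) (σ := σ) (ℓ := ℓ) ⟨?_, ?_⟩ ?_
        · rintro rfl
          rw [decide_eq_true_eq] at haσ
          exact hx _ _ haσ
        · rintro rfl
          rw [decide_eq_false_iff_not, not_lt] at hcσ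
          exact hx _ _ (lt_of_le_of_ne hcσ (fun h => hc i h.symm))
        · rw [← hbL]; exact hL a b c ha hb hc hab hbc
      by_cases hσℓ : σ = ℓ
      · right
        intro a ha b hb c hc hab hbc h1 h2
        exact (hq a b c ha hb hc hab hbc).1 hσℓ h1 h2
      · left
        intro a ha b hb c hc hab hbc h1 h2
        exact (hq a b c ha hb hc hab hbc).2 hσℓ h1 h2
    choose u D hu using hsplit
    let κ : Fin n → Key := fun a => (L a, decide (τ i < a), u (L a) (decide (τ i < a)) a)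
    let F : Key → Set (Fin n) := fun x => {a | (∀ j, τ j ≠ a) ∧ κ a = x}
    refine ⟨(κ, fun x => D x.1 x.2.1 x.2.2, fun x => (ρ '' F x).toFinset), ρ, hρ, fun x => ⟨?_, ?_⟩⟩
    · obtain ⟨ℓ, σ, t⟩ := x
      have h1 := hu ℓ σ t
      have hsub : ∀ a ∈ {a : Fin n | (∀ j, τ j ≠ a) ∧ κ a = (ℓ, σ, t)},
          a ∈ {a | a ∈ {a : Fin n | (∀ j, τ j ≠ a) ∧ L a = ℓ ∧ decide (τ i < a) = σ} ∧
            u ℓ σ a = t} := by
        rintro a ⟨ha, hκ⟩
        simp only [κ, Prod.mk.injEq] at hκ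
        obtain ⟨e1, e2, e3⟩ := hκ
        rw [e1, e2] at e3
        exact ⟨⟨ha, e1, e2⟩, e3⟩
      constructor
      · intro hD a ha b hb hab
        exact (hρ a b).mpr (h1.1 hD (hsub a ha) (hsub b hb) hab)
      · intro hD a ha b hb hab
        exact (hρ b a).mpr (h1.2 hD (hsub a ha) (hsub b hb) hab)
    · simp only [Set.coe_toFinset]
      rfl
  choose e ρ hρ hR using hper
  refine ⟨(τ, L, fun i j a => orient (s (τ i)) (s (τ j)) (s a), e), hx, ?_, ?_, ?_⟩
  · intro a b c ha hb hc hab hbc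
    obtain ⟨h1, h2⟩ := hL a b c ha hb hc hab hbc
    unfold orient
    by_cases hLb : L b = true
    · rw [sign_pos (h1 hLb)]
      exact (if_pos hLb).symm
    · rw [sign_neg (h2 (by simpa using hLb))]
      exact (if_neg hLb).symm
  · intro i j a; rfl
  · intro i
    exact ⟨ρ i, hρ i, fun x => hR i x⟩

end

end Pool.Agent.X234.OT
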