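import Mathlib

/-!
# Planar configurations near convex position: definitions
-/

namespace Pool.Agent.X234.OT

open Classical

/-- The determinant of the `2 × 2` matrix with columns `q - p` and `r - p`. -/
def det3 (p q r : ℝ × ℝ) : ℝ :=
  (q.1 - p.1) * (r.2 - p.2) - (q.2 - p.2) * (r.1 - p.1)

/-- The sign (`+`, `-` or `0`) of `det (q - p, r - p)`. -/
noncomputable def orient (p q r : ℝ × ℝ) : SignType := SignType.sign (det3 p q r)

/-- Two finite planar configurations have the same order type: there is a bijection preserving the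
sign of every ordered triple of points. -/
def SameOrderType (S S' : Finset (ℝ × ℝ)) : Prop :=
  ∃ φ : {x // x ∈ S} ≃ {x // x ∈ S'}, ∀ p q r : {x // x ∈ S},
    orient (φ p).1 (φ q).1 (φ r).1 = orient p.1 q.1 r.1

/-- Convex position: no point lies in the convex hull of the others, i.e. every point is a vertex
of the convex hull. -/
def ConvexPosition (S : Finset (ℝ × ℝ)) : Prop :=
  ∀ p ∈ S, p ∉ convexHull ℝ ((S : Set (ℝ × ℝ)) \ {p})

/-- `DTC S`: the minimum number of points whose removal leaves a configuration in convex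
position. -/
noncomputable def DTC (S : Finset (ℝ × ℝ)) : ℕ :=
  sInf {t : ℕ | ∃ T : Finset (ℝ × ℝ), T ⊆ S ∧ T.card = t ∧ ConvexPosition (S \ T)}

/-- The `n`-point configurations `S` with `DTC S < k`. -/
def Config (k n : ℕ) : Type := {S : Finset (ℝ × ℝ) // S.card = n ∧ DTC S < k}

theorem SameOrderType.refl (S : Finset (ℝ × ℝ)) : SameOrderType S S :=
  ⟨Equiv.refl _, fun _ _ _ => rfl⟩

theorem SameOrderType.symm {S S' : Finset (ℝ × ℝ)} (h : SameOrderType S S') :
    SameOrderType S' S := by
  obtain ⟨φ, hφ⟩ := h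
  refine ⟨φ.symm, fun p q r => ?_⟩
  have := hφ (φ.symm p) (φ.symm q) (φ.symm r)
  simp only [Equiv.apply_symm_apply] at this
  exact this.symm

theorem SameOrderType.trans {S S' S'' : Finset (ℝ × ℝ)} (h : SameOrderType S S')
    (h' : SameOrderType S' S'') : SameOrderType S S'' := by
  obtain ⟨φ, hφ⟩ := h
  obtain ⟨ψ, hψ⟩ := h'
  refine ⟨φ.trans ψ, fun p q r => ?_⟩
  simp only [Equiv.trans_apply]
  rw [hψ, hφ]

/-- Having the same order type, as an equivalence relation on `Config k n`. -/
def orderTypeSetoid (k n : ℕ) : Setoid (Config k n) where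
  r S S' := SameOrderType S.1 S'.1
  iseqv := ⟨fun S => SameOrderType.refl S.1, fun h => h.symm, fun h h' => h.trans h'⟩

/-- `c k n`: the number of order types of `n`-point configurations `S` with `DTC S < k`. -/
noncomputable def c (k n : ℕ) : ℕ := Nat.card (Quotient (orderTypeSetoid k n))

/-! ### basic facts -/

theorem dtc_lt_iff {S : Finset (ℝ × ℝ)} {k : ℕ} :
    DTC S < k ↔ ∃ T : Finset (ℝ × ℝ), T ⊆ S ∧ T.card < k ∧ ConvexPosition (S \ T) := by
  constructor
  · intro h
    have hne : {t : ℕ | ∃ T : Finset (ℝ × ℝ), T ⊆ S ∧ T.card = t ∧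
        ConvexPosition (S \ T)}.Nonempty := by
      refine ⟨S.card, S, subset_rfl, rfl, ?_⟩
      intro p hp
      simp at hp
    obtain ⟨T, hT, hc, hcp⟩ := Nat.sInf_mem hne
    exact ⟨T, hT, by rw [hc]; exact h, hcp⟩
  · rintro ⟨T, hT, hc, hcp⟩
    exact lt_of_le_of_lt (Nat.sInf_le ⟨T, hT, rfl, hcp⟩) hc

theorem det3_swap (p q r : ℝ × ℝ) : det3 p r q = - det3 p q r := by
  unfold det3; ring

theorem det3_rot (p q r : ℝ × ℝ) : det3 q r p = det3 p q r := by
  unfold det3; ring

theorem orient_swap (p q r : ℝ × ℝ) : orient p r q = - orient p q r := by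
  unfold orient; rw [det3_swap, Left.sign_neg]

theorem orient_rot (p q r : ℝ × ℝ) : orient q r p = orient p q r := by
  unfold orient; rw [det3_rot]

end Pool.Agent.X234.OT
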