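import Pool.Agent.X234.OT.Defs

/-!
# Lower bound: sign words give many order types with one interior point
-/

namespace Pool.Agent.X234.OT

open Classical

noncomputable section

/-- sign of a bit -/
def sg (b : Bool) : ℝ := if b then 1 else -1

/-- length -/
def nr (i : ℕ) : ℝ := Real.sqrt (1 + (i : ℝ) ^ 2)

theorem nr_pos (i : ℕ) : 0 < nr i := Real.sqrt_pos.mpr (by positivity)

theorem nr_sq (i : ℕ) : nr i ^ 2 = 1 + (i : ℝ) ^ 2 := Real.sq_sqrt (by positivity)

theorem sg_sq (b : Bool) : sg b * sg b = 1 := by cases b <;> simp [sg]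

/-- the points on the unit circle -/
def pt (b : Bool) (i : ℕ) : ℝ × ℝ := (sg b / nr i, sg b * i / nr i)

theorem det3_pt (a b : Bool) (i j : ℕ) :
    det3 0 (pt a i) (pt b j) = sg a * sg b * ((j : ℝ) - i) / (nr i * nr j) := by
  have hi := (nr_pos i).ne'
  have hj := (nr_pos j).ne'
  simp only [det3, pt, Prod.fst_zero, Prod.snd_zero, sub_zero]
  field_simp

theorem orient_pt (a b : Bool) (i j : ℕ) :
    orient 0 (pt a i) (pt b j) = SignType.sign (sg a * sg b * ((j : ℝ) - i)) := by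
  unfold orient
  rw [det3_pt, div_eq_mul_inv, sign_mul]
  have : SignType.sign ((nr i * nr j)⁻¹) = 1 :=
    sign_pos (inv_pos.mpr (mul_pos (nr_pos i) (nr_pos j)))
  rw [this, mul_one]

theorem pt_norm (a : Bool) (i : ℕ) : (pt a i).1 * (pt a i).1 + (pt a i).2 * (pt a i).2 = 1 := by
  have hi := (nr_pos i).ne'
  have h2 := nr_sq i
  have hs := sg_sq a
  simp only [pt]
  rw [div_mul_div_comm, div_mul_div_comm, ← add_div, div_eq_one_iff_eq (by positivity)]
  calc sg a * sg a + sg a * i * (sg a * i) = (sg a * sg a) * (1 + (i : ℝ) ^ 2) := by ring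
    _ = nr i * nr i := by rw [hs, one_mul, ← h2]; ring

theorem pt_ne_zero (a : Bool) (i : ℕ) : pt a i ≠ 0 := by
  intro h
  have := pt_norm a i
  rw [h] at this
  simp at this

theorem pt_inj {a b : Bool} {i j : ℕ} (h : pt a i = pt b j) : a = b ∧ i = j := by
  have h0 : det3 0 (pt a i) (pt b j) = 0 := by rw [h]; simp [det3]; ring
  rw [det3_pt] at h0
  have hi := (nr_pos i).ne'
  have hj := (nr_pos j).ne'
  have hsa : sg a ≠ 0 := by intro h'; have := sg_sq a; rw [h'] at this; simp at this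
  have hsb : sg b ≠ 0 := by intro h'; have := sg_sq b; rw [h'] at this; simp at this
  have hij : (j : ℝ) - i = 0 := by
    have := (div_eq_zero_iff.mp h0).resolve_right (mul_ne_zero hi hj)
    exact (mul_eq_zero.mp this).resolve_left (mul_ne_zero hsa hsb)
  have hij' : i = j := by
    have : (j : ℝ) = i := by linarith
    exact_mod_cast this.symm
  subst hij'
  refine ⟨?_, rfl⟩
  have h1 : sg a / nr i = sg b / nr i := congrArg Prod.fst h
  have h2 : sg a = sg b := by
    field_simp at h1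
    exact h1
  cases a <;> cases b <;> simp [sg] at h2 ⊢ <;> norm_num at h2

/-- the configuration of a word -/
def conf {m : ℕ} (w : Fin m → Bool) : Finset (ℝ × ℝ) :=
  insert 0 (Finset.univ.image (fun i : Fin m => pt (w i) i))

theorem mem_conf {m : ℕ} {w : Fin m → Bool} {x : ℝ × ℝ} :
    x ∈ conf w ↔ x = 0 ∨ ∃ i : Fin m, x = pt (w i) i := by
  unfold conf
  rw [Finset.mem_insert, Finset.mem_image]
  constructor
  · rintro (h | ⟨i, -, h⟩)
    · exact Or.inl h
    · exact Or.inr ⟨i, h.symm⟩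
  · rintro (h | ⟨i, h⟩)
    · exact Or.inl h
    · exact Or.inr ⟨i, Finset.mem_univ _, h.symm⟩

theorem card_conf {m : ℕ} (w : Fin m → Bool) : (conf w).card = m + 1 := by
  unfold conf
  rw [Finset.card_insert_of_notMem, Finset.card_image_of_injective, Finset.card_univ,
    Fintype.card_fin]
  · intro i j h
    exact Fin.ext (pt_inj h).2
  · rw [Finset.mem_image]
    rintro ⟨i, -, h⟩
    exact pt_ne_zero _ _ h

/-- points of norm one are in convex position -/
theorem convexPosition_of_unit {S : Finset (ℝ × ℝ)} (h : ∀ x ∈ S, x.1 * x.1 + x.2 * x.2 = 1) :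
    ConvexPosition S := by
  intro p hp hmem
  have hconv : Convex ℝ {x : ℝ × ℝ | p.1 * x.1 + p.2 * x.2 < 1} := by
    intro x hx y hy a b ha hb hab
    simp only [Set.mem_ofPred_eq, Prod.fst_add, Prod.smul_fst, Prod.snd_add, Prod.smul_snd,
      smul_eq_mul] at hx hy ⊢
    have e : p.1 * (a * x.1 + b * y.1) + p.2 * (a * x.2 + b * y.2)
        = a * (p.1 * x.1 + p.2 * x.2) + b * (p.1 * y.1 + p.2 * y.2) := by ring
    rw [e]
    rcases eq_or_lt_of_le ha with ha0 | ha0
    · have hb1 : b = 1 := by linarith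
      rw [← ha0, hb1]; linarith
    · have h1 : a * (p.1 * x.1 + p.2 * x.2) < a * 1 := mul_lt_mul_of_pos_left hx ha0
      have h2 : b * (p.1 * y.1 + p.2 * y.2) ≤ b * 1 := mul_le_mul_of_nonneg_left hy.le hb
      linarith
  have hsub : ((S : Set (ℝ × ℝ)) \ {p}) ⊆ {x : ℝ × ℝ | p.1 * x.1 + p.2 * x.2 < 1} := by
    rintro x ⟨hxS, hxp⟩
    have h1 := h p hp
    have h2 := h x hxS
    have hne : x ≠ p := hxp
    simp only [Set.mem_ofPred_eq]
    have hpos : 0 < (p.1 - x.1) ^ 2 + (p.2 - x.2) ^ 2 := by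
      by_contra hcon
      push Not at hcon
      have e1 : (p.1 - x.1) ^ 2 = 0 := by nlinarith [sq_nonneg (p.1 - x.1), sq_nonneg (p.2 - x.2)]
      have e2 : (p.2 - x.2) ^ 2 = 0 := by nlinarith [sq_nonneg (p.1 - x.1), sq_nonneg (p.2 - x.2)]
      have e1' := pow_eq_zero_iff (two_ne_zero) |>.mp e1
      have e2' := pow_eq_zero_iff (two_ne_zero) |>.mp e2
      apply hne
      ext
      · linarith
      · linarith
    nlinarith
  have := convexHull_min hsub hconv hmem
  simp only [Set.mem_ofPred_eq] at this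
  have h1 := h p hp
  linarith

theorem dtc_conf {m : ℕ} (w : Fin m → Bool) {k : ℕ} (hk : 2 ≤ k) : DTC (conf w) < k := by
  rw [dtc_lt_iff]
  refine ⟨{0}, ?_, ?_, ?_⟩
  · intro x hx
    rw [Finset.mem_singleton] at hx
    rw [mem_conf]
    exact Or.inl hx
  · rw [Finset.card_singleton]; omega
  · apply convexPosition_of_unit
    intro x hx
    rw [Finset.mem_sdiff, mem_conf, Finset.mem_singleton] at hx
    rcases hx with ⟨h | ⟨i, h⟩, h0⟩
    · exact absurd h h0
    · rw [h]; exact pt_norm _ _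

theorem sg_mul_sign {a b a' b' : Bool} {x : ℝ}
    (h : SignType.sign (sg a * sg b * x) = SignType.sign (sg a' * sg b' * x)) (hx : 0 < x)
    (ha : a = a') : b = b' := by
  subst ha
  cases a <;> cases b <;> cases b' <;> simp [sg, hx, sign_pos] at h ⊢

/-- the key recovery lemma -/
theorem recover {m : ℕ} (hm : 0 < m) (w w' : Fin m → Bool) (R : Finset (ℝ × ℝ))
    (f f' : ℝ × ℝ → ℝ × ℝ) (hf : ∀ x ∈ conf w, f x ∈ R) 
    (hinj : ∀ x ∈ conf w, ∀ y ∈ conf w, f x = f y → x = y)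
    (hinj' : ∀ x ∈ conf w', ∀ y ∈ conf w', f' x = f' y → x = y)
    (hsurj' : ∀ y ∈ R, ∃ x ∈ conf w', f' x = y)
    (ho : ∀ x ∈ conf w, ∀ y ∈ conf w, ∀ z ∈ conf w,
      orient (f x) (f y) (f z) = orient x y z)
    (ho' : ∀ x ∈ conf w', ∀ y ∈ conf w', ∀ z ∈ conf w',
      orient (f' x) (f' y) (f' z) = orient x y z)
    (h0 : f 0 = f' 0) (h1 : f (pt (w ⟨0, hm⟩) 0) = f' (pt (w' ⟨0, hm⟩) 0))
    (hw : w ⟨0, hm⟩ = w' ⟨0, hm⟩) : w = w' := by
  have z0 : (0 : ℝ × ℝ) ∈ conf w := mem_conf.mpr (Or.inl rfl)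
  have z0' : (0 : ℝ × ℝ) ∈ conf w' := mem_conf.mpr (Or.inl rfl)
  have pm : ∀ i : Fin m, pt (w i) i ∈ conf w := fun i => mem_conf.mpr (Or.inr ⟨i, rfl⟩)
  have pm' : ∀ i : Fin m, pt (w' i) i ∈ conf w' := fun i => mem_conf.mpr (Or.inr ⟨i, rfl⟩)
  have hex : ∀ i : Fin m, ∃ j : Fin m, f (pt (w i) i) = f' (pt (w' j) j) := by
    intro i
    obtain ⟨x, hx, hxe⟩ := hsurj' _ (hf _ (pm i))
    rcases mem_conf.mp hx with h | ⟨j, h⟩
    · exfalso
      rw [h, ← h0] at hxe
      exact pt_ne_zero _ _ (hinj _ (pm i) _ z0 hxe.symm)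
    · exact ⟨j, by rw [← hxe, h]⟩
  choose π hπ using hex
  have hπ0 : π ⟨0, hm⟩ = ⟨0, hm⟩ := by
    have e1 := hπ ⟨0, hm⟩
    have e2 : f' (pt (w' (π ⟨0, hm⟩)) (π ⟨0, hm⟩ : ℕ)) = f' (pt (w' ⟨0, hm⟩) 0) := by
      rw [← e1, ← h1]
    have e3 := hinj' _ (pm' _) _ (pm' ⟨0, hm⟩) e2
    exact Fin.ext (pt_inj e3).2
  have hor : ∀ i j : Fin m, SignType.sign (sg (w i) * sg (w j) * ((j : ℕ) - (i : ℕ) : ℝ))
      = SignType.sign (sg (w' (π i)) * sg (w' (π j)) * (((π j : Fin m) : ℕ) - ((π i : Fin m) : ℕ) : ℝ)) := by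
    intro i j
    rw [← orient_pt, ← orient_pt, ← ho _ z0 _ (pm i) _ (pm j), ← ho' _ z0' _ (pm' (π i)) _ (pm' (π j)),
      ← hπ, ← hπ, ← h0]
  have hww : ∀ j : Fin m, w j = w' (π j) := by
    intro j
    by_cases hj : j = ⟨0, hm⟩
    · rw [hj, hπ0, hw]
    · have hj1 : (0 : ℝ) < ((j : ℕ) - ((⟨0, hm⟩ : Fin m) : ℕ) : ℝ) := by
        have : 0 < (j : ℕ) := by
          rcases Nat.eq_zero_or_pos (j : ℕ) with h | h
          · exact absurd (Fin.ext h) hj
          · exact h
        simpa using this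
      have h := hor ⟨0, hm⟩ j
      rw [hπ0, ← hw] at h
      have hne : SignType.sign (sg (w ⟨0, hm⟩) * sg (w j) * ((j : ℕ) - ((⟨0, hm⟩ : Fin m) : ℕ) : ℝ)) ≠ 0 := by
        rw [sign_ne_zero]
        have a1 : sg (w ⟨0, hm⟩) ≠ 0 := by
          intro h'; have := sg_sq (w ⟨0, hm⟩); rw [h'] at this; simp at this
        have a2 : sg (w j) ≠ 0 := by
          intro h'; have := sg_sq (w j); rw [h'] at this; simp at this
        exact mul_ne_zero (mul_ne_zero a1 a2) hj1.ne'
      have hpos : (0 : ℝ) < (((π j : Fin m) : ℕ) - ((⟨0, hm⟩ : Fin m) : ℕ) : ℝ) := by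
        rcases Nat.eq_zero_or_pos ((π j : Fin m) : ℕ) with h' | h'
        · exfalso
          apply hne
          rw [h, h']
          simp
        · simpa using h'
      have e1 : SignType.sign (sg (w ⟨0, hm⟩) * sg (w j) * 1)
          = SignType.sign (sg (w ⟨0, hm⟩) * sg (w' (π j)) * 1) := by
        rw [sign_mul, sign_mul (sg (w ⟨0, hm⟩) * sg (w' (π j)))] at h
        rw [sign_pos hj1, sign_pos hpos] at h
        simpa using h
      exact sg_mul_sign e1 one_pos rfl
  have hmono : StrictMono π := by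
    intro i j hij
    have h := hor i j
    rw [hww i, hww j] at h
    have hij' : (0 : ℝ) < ((j : ℕ) - (i : ℕ) : ℝ) := by
      have : (i : ℕ) < (j : ℕ) := hij
      have : ((i : ℕ) : ℝ) < ((j : ℕ) : ℝ) := by exact_mod_cast this
      linarith
    rw [sign_mul, sign_mul (sg (w' (π i)) * sg (w' (π j))), sign_pos hij'] at h
    have hs : SignType.sign (sg (w' (π i)) * sg (w' (π j))) ≠ 0 := by
      rw [sign_ne_zero]
      have a1 : sg (w' (π i)) ≠ 0 := by
        intro h'; have := sg_sq (w' (π i)); rw [h'] at this; simp at this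
      have a2 : sg (w' (π j)) ≠ 0 := by
        intro h'; have := sg_sq (w' (π j)); rw [h'] at this; simp at this
      exact mul_ne_zero a1 a2
    have h2 : SignType.sign ((((π j : Fin m) : ℕ) - ((π i : Fin m) : ℕ) : ℝ)) = 1 := by
      revert h hs
      generalize SignType.sign (sg (w' (π i)) * sg (w' (π j))) = u
      generalize SignType.sign ((((π j : Fin m) : ℕ) - ((π i : Fin m) : ℕ) : ℝ)) = v
      revert u v
      decide
    rw [sign_eq_one_iff] at h2
    have h3 : (((π i : Fin m) : ℕ) : ℝ) < (((π j : Fin m) : ℕ) : ℝ) := by linarith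
    have h4 : ((π i : Fin m) : ℕ) < ((π j : Fin m) : ℕ) := by exact_mod_cast h3
    exact h4
  have hid : π = id := by
    have hsur : Function.Surjective π := Finite.surjective_of_injective hmono.injective
    have hr : Set.range π = Set.range (id : Fin m → Fin m) := by
      rw [hsur.range_eq, Set.range_id]
    exact (StrictMono.range_inj hmono strictMono_id).mp hr
  funext j
  rw [hww j, hid]
  rfl

/-- the configuration of a word as an element of `Config` -/
def confC {m : ℕ} (k : ℕ) (hk : 2 ≤ k) (w : Fin m → Bool) : Config k (m + 1) :=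
  ⟨conf w, card_conf w, dtc_conf w hk⟩

/-- function form of an equivalence -/
theorem fun_of_same {S S' : Finset (ℝ × ℝ)} (h : SameOrderType S S') :
    ∃ f : ℝ × ℝ → ℝ × ℝ, (∀ x ∈ S, f x ∈ S') ∧
      (∀ x ∈ S, ∀ y ∈ S, f x = f y → x = y) ∧ (∀ y ∈ S', ∃ x ∈ S, f x = y) ∧
      (∀ x ∈ S, ∀ y ∈ S, ∀ z ∈ S, orient (f x) (f y) (f z) = orient x y z) := by
  obtain ⟨φ, hφ⟩ := h
  refine ⟨fun x => if h : x ∈ S then (φ ⟨x, h⟩).1 else 0, ?_, ?_, ?_, ?_⟩
  · intro x hx
    simp only [hx, dif_pos]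
    exact (φ ⟨x, hx⟩).2
  · intro x hx y hy h
    simp only [hx, hy, dif_pos] at h
    have := φ.injective (Subtype.ext h)
    exact congrArg Subtype.val this
  · intro y hy
    refine ⟨(φ.symm ⟨y, hy⟩).1, (φ.symm ⟨y, hy⟩).2, ?_⟩
    have hm : (φ.symm ⟨y, hy⟩).1 ∈ S := (φ.symm ⟨y, hy⟩).2
    simp only [hm, dif_pos]
    have e : (⟨(φ.symm ⟨y, hy⟩).1, hm⟩ : {x // x ∈ S}) = φ.symm ⟨y, hy⟩ := rfl
    rw [e, Equiv.apply_symm_apply]
  · intro x hx y hy z hz
    simp only [hx, hy, hz, dif_pos]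
    exact hφ ⟨x, hx⟩ ⟨y, hy⟩ ⟨z, hz⟩

theorem lower_count {m : ℕ} (hm : 0 < m) (k : ℕ) (hk : 2 ≤ k)
    (hfin : Finite (Quotient (orderTypeSetoid k (m + 1)))) :
    2 ^ m ≤ 2 * (m + 1) ^ 2 * c k (m + 1) := by
  haveI : Fintype (Quotient (orderTypeSetoid k (m + 1))) := Fintype.ofFinite _
  letI st := orderTypeSetoid k (m + 1)
  let F : (Fin m → Bool) → Quotient (orderTypeSetoid k (m + 1)) := fun w =>
    Quotient.mk (orderTypeSetoid k (m + 1)) (confC k hk w)
  have hfib : ∀ a ∈ (Finset.univ : Finset (Fin m → Bool)).image F,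
      ((Finset.univ : Finset (Fin m → Bool)).filter (fun w => F w = a)).card
        ≤ 2 * (m + 1) ^ 2 := by
    intro a _
    set R : Config k (m + 1) := a.out with hR
    have hsame : ∀ w : Fin m → Bool, F w = a → SameOrderType (conf w) R.1 := by
      intro w hw
      have : Quotient.mk (orderTypeSetoid k (m + 1)) (confC k hk w)
          = Quotient.mk (orderTypeSetoid k (m + 1)) R := by
        rw [hR, Quotient.out_eq]
        exact hw
      exact Quotient.exact this
    have hG : ∀ w : Fin m → Bool, ∃ f : ℝ × ℝ → ℝ × ℝ, F w = a →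
      (∀ x ∈ conf w, f x ∈ R.1) ∧
      (∀ x ∈ conf w, ∀ y ∈ conf w, f x = f y → x = y) ∧ (∀ y ∈ R.1, ∃ x ∈ conf w, f x = y) ∧
      (∀ x ∈ conf w, ∀ y ∈ conf w, ∀ z ∈ conf w, orient (f x) (f y) (f z) = orient x y z) := by
      intro w
      by_cases hw : F w = a
      · obtain ⟨f, hf⟩ := fun_of_same (hsame w hw)
        exact ⟨f, fun _ => hf⟩
      · exact ⟨fun _ => 0, fun h => absurd h hw⟩
    choose G hG using hG
    have hcard : (R.1 ×ˢ R.1 ×ˢ (Finset.univ : Finset Bool)).card = 2 * (m + 1) ^ 2 := by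
      rw [Finset.card_product, Finset.card_product, R.2.1, Finset.card_univ, Fintype.card_bool]
      ring
    rw [← hcard]
    apply Finset.card_le_card_of_injOn
      (fun w : Fin m → Bool => (G w 0, G w (pt (w ⟨0, hm⟩) 0), w ⟨0, hm⟩))
    · intro w hw
      have hw' : F w = a := by simpa using hw
      obtain ⟨h1, -⟩ := hG w hw'
      have z0 : (0 : ℝ × ℝ) ∈ conf w := mem_conf.mpr (Or.inl rfl)
      have p0 : pt (w ⟨0, hm⟩) 0 ∈ conf w := mem_conf.mpr (Or.inr ⟨⟨0, hm⟩, rfl⟩)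
      simp only [Finset.coe_product, Set.mem_prod, Finset.mem_coe, Finset.mem_univ, and_true]
      exact ⟨h1 _ z0, h1 _ p0⟩
    · intro w hw w' hw' h
      have hw1 : F w = a := by simpa using hw
      have hw1' : F w' = a := by simpa using hw'
      obtain ⟨h1, h2, h3, h4⟩ := hG w hw1
      obtain ⟨h1', h2', h3', h4'⟩ := hG w' hw1'
      simp only [Prod.mk.injEq] at h
      exact recover hm w w' R.1 (G w) (G w') h1 h2 h2' h3' h4 h4' h.1 h.2.1 h.2.2
  have h1 := Finset.card_le_mul_card_image (s := (Finset.univ : Finset (Fin m → Bool)))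
    (f := F) (2 * (m + 1) ^ 2) hfib
  have h2 : ((Finset.univ : Finset (Fin m → Bool)).image F).card ≤ c k (m + 1) := by
    unfold c
    rw [Nat.card_eq_fintype_card]
    exact Finset.card_le_univ _
  have h3 : (Finset.univ : Finset (Fin m → Bool)).card = 2 ^ m := by
    rw [Finset.card_univ, Fintype.card_fun, Fintype.card_bool, Fintype.card_fin]
  rw [h3] at h1
  exact h1.trans (Nat.mul_le_mul_left _ h2)

end

end Pool.Agent.X234.OT
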