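import Pool.Agent.X234.OT.Code
import Pool.Agent.X234.OT.Lower

/-!
# Counting
-/

namespace Pool.Agent.X234.OT

open Classical

noncomputable section

/-- `S` is coded by `d` -/
def Coded (S : Finset (ℝ × ℝ)) {K n : ℕ} (d : Code K n) : Prop :=
  ∃ s0 s : Fin n → ℝ × ℝ, Function.Injective s0 ∧ (∀ x, x ∈ S ↔ ∃ i, s0 i = x) ∧
    (∀ a b c, orient (s a) (s b) (s c) = orient (s0 a) (s0 b) (s0 c)) ∧ Codes s d

theorem same_of_coded {S S' : Finset (ℝ × ℝ)} {K n : ℕ} {d : Code K n} (h : Coded S d)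
    (h' : Coded S' d) : SameOrderType S S' := by
  obtain ⟨s0, s, hinj, hmem, ho, hc⟩ := h
  obtain ⟨s0', s', hinj', hmem', ho', hc'⟩ := h'
  have key := codes_eq hc hc'
  let e : Fin n ≃ {x // x ∈ S} := Equiv.ofBijective (fun i => ⟨s0 i, (hmem _).mpr ⟨i, rfl⟩⟩)
    ⟨fun i j h => hinj (congrArg Subtype.val h), fun x => by
      obtain ⟨i, hi⟩ := (hmem x.1).mp x.2
      exact ⟨i, Subtype.ext hi⟩⟩
  let e' : Fin n ≃ {x // x ∈ S'} := Equiv.ofBijective (fun i => ⟨s0' i, (hmem' _).mpr ⟨i, rfl⟩⟩)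
    ⟨fun i j h => hinj' (congrArg Subtype.val h), fun x => by
      obtain ⟨i, hi⟩ := (hmem' x.1).mp x.2
      exact ⟨i, Subtype.ext hi⟩⟩
  refine ⟨e.symm.trans e', fun p q r => ?_⟩
  obtain ⟨a, rfl⟩ := e.surjective p
  obtain ⟨b, rfl⟩ := e.surjective q
  obtain ⟨c, rfl⟩ := e.surjective r
  simp only [Equiv.trans_apply, Equiv.symm_apply_apply]
  change orient (s0' a) (s0' b) (s0' c) = orient (s0 a) (s0 b) (s0 c)
  rw [← ho', ← ho, key]

/-- the shear -/
def shear (ε : ℝ) : (ℝ × ℝ) →ₗ[ℝ] (ℝ × ℝ) where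
  toFun p := (p.1 + ε * p.2, p.2)
  map_add' p q := by
    ext
    · simp only [Prod.fst_add, Prod.snd_add]; ring
    · simp
  map_smul' r p := by
    ext
    · simp only [Prod.smul_fst, Prod.smul_snd, smul_eq_mul, RingHom.id_apply]; ring
    · simp

theorem shear_apply (ε : ℝ) (p : ℝ × ℝ) : shear ε p = (p.1 + ε * p.2, p.2) := rfl

theorem shear_inj (ε : ℝ) : Function.Injective (shear ε) := by
  intro p q h
  rw [shear_apply, shear_apply, Prod.mk.injEq] at h
  obtain ⟨h1, h2⟩ := h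
  ext
  · rw [h2] at h1; linarith
  · exact h2

theorem orient_shear (ε : ℝ) (p q r : ℝ × ℝ) :
    orient (shear ε p) (shear ε q) (shear ε r) = orient p q r := by
  unfold orient
  congr 1
  simp only [shear_apply, det3]
  ring

theorem exists_shear (S : Finset (ℝ × ℝ)) :
    ∃ ε : ℝ, ∀ x ∈ S, ∀ y ∈ S, x.1 + ε * x.2 = y.1 + ε * y.2 → x = y := by
  obtain ⟨ε, hε⟩ := Infinite.exists_notMem_finset
    ((S ×ˢ S).image (fun z : (ℝ × ℝ) × (ℝ × ℝ) => -(z.1.1 - z.2.1) / (z.1.2 - z.2.2)))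
  refine ⟨ε, fun x hx y hy h => ?_⟩
  by_cases h2 : x.2 = y.2
  · ext
    · rw [h2] at h; linarith
    · exact h2
  · exfalso
    apply hε
    rw [Finset.mem_image]
    refine ⟨(x, y), Finset.mem_product.mpr ⟨hx, hy⟩, ?_⟩
    have h3 : x.2 - y.2 ≠ 0 := sub_ne_zero.mpr h2
    simp only
    rw [div_eq_iff h3]
    linarith

theorem exists_cover {K n : ℕ} (hn : 0 < n) (I : Finset (Fin n)) (hI : I.card ≤ K) :
    ∃ τ : Fin K → Fin n, ∀ i ∈ I, ∃ j, τ j = i := by
  have hcard : Fintype.card {x // x ∈ I} ≤ Fintype.card (Fin K) := by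
    rw [Fintype.card_coe, Fintype.card_fin]; exact hI
  obtain ⟨e⟩ := Function.Embedding.nonempty_of_card_le hcard
  refine ⟨Function.extend e (fun x : {x // x ∈ I} => x.1) (fun _ => ⟨0, hn⟩), fun i hi => ?_⟩
  exact ⟨e ⟨i, hi⟩, e.injective.extend_apply _ _ ⟨i, hi⟩⟩

theorem exists_coded {K n : ℕ} (hn : 0 < n) (S : Finset (ℝ × ℝ)) (hS : S.card = n)
    (hD : DTC S < K + 1) : ∃ d : Code K n, Coded S d := by
  obtain ⟨T, hTS, hTc, hcp⟩ := dtc_lt_iff.mp hD
  obtain ⟨ε, hε⟩ := exists_shear S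
  let g : ℝ × ℝ → ℝ := fun p => p.1 + ε * p.2
  have hG : (S.image g).card = n := by
    rw [Finset.card_image_of_injOn, hS]
    intro x hx y hy h
    exact hε x hx y hy h
  let o := (S.image g).orderEmbOfFin hG
  have hex : ∀ i : Fin n, ∃ x ∈ S, g x = o i := by
    intro i
    have := (S.image g).orderEmbOfFin_mem hG i
    rw [Finset.mem_image] at this
    exact this
  choose s0 hs0S hs0g using hex
  have hinj : Function.Injective s0 := by
    intro i j h
    have : o i = o j := by rw [← hs0g, ← hs0g, h]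
    exact o.injective this
  have hmem : ∀ x, x ∈ S ↔ ∃ i, s0 i = x := by
    intro x
    constructor
    · intro hx
      have : g x ∈ (S.image g : Set ℝ) := by
        exact_mod_cast Finset.mem_image_of_mem g hx
      rw [← Finset.range_orderEmbOfFin (S.image g) hG] at this
      obtain ⟨i, hi⟩ := this
      refine ⟨i, hε _ (hs0S i) _ hx ?_⟩
      have h2 := hs0g i
      change g (s0 i) = g x
      rw [h2]; exact hi
    · rintro ⟨i, rfl⟩; exact hs0S i
  let s : Fin n → ℝ × ℝ := fun i => shear ε (s0 i)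
  have hx : ∀ a b : Fin n, a < b → (s a).1 < (s b).1 := by
    intro a b hab
    change g (s0 a) < g (s0 b)
    rw [hs0g, hs0g]
    exact o.strictMono hab
  let I : Finset (Fin n) := Finset.univ.filter (fun i => s0 i ∈ T)
  have hI : I.card ≤ K := by
    have : I.card ≤ T.card := by
      apply Finset.card_le_card_of_injOn s0
      · intro i hi
        have : i ∈ I := hi
        rw [Finset.mem_filter] at this
        exact this.2
      · intro i _ j _ h; exact hinj h
    omega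
  obtain ⟨τ, hτ⟩ := exists_cover hn I hI
  have hcp' : ∀ a : Fin n, (∀ j, τ j ≠ a) →
      s a ∉ convexHull ℝ {p | ∃ b : Fin n, (∀ j, τ j ≠ b) ∧ b ≠ a ∧ p = s b} := by
    intro a ha hmemc
    have hset : {p | ∃ b : Fin n, (∀ j, τ j ≠ b) ∧ b ≠ a ∧ p = s b}
        = shear ε '' {p | ∃ b : Fin n, (∀ j, τ j ≠ b) ∧ b ≠ a ∧ p = s0 b} := by
      ext p
      constructor
      · rintro ⟨b, hb, hba, rfl⟩
        exact ⟨s0 b, ⟨b, hb, hba, rfl⟩, rfl⟩
      · rintro ⟨q, ⟨b, hb, hba, rfl⟩, rfl⟩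
        exact ⟨b, hb, hba, rfl⟩
    rw [hset, ← LinearMap.image_convexHull] at hmemc
    obtain ⟨q, hq, hqe⟩ := hmemc
    have hq' : q = s0 a := shear_inj ε hqe
    rw [hq'] at hq
    have hnotT : ∀ b : Fin n, (∀ j, τ j ≠ b) → s0 b ∉ T := by
      intro b hb hbT
      obtain ⟨j, hj⟩ := hτ b (Finset.mem_filter.mpr ⟨Finset.mem_univ _, hbT⟩)
      exact hb j hj
    refine hcp (s0 a) (Finset.mem_sdiff.mpr ⟨hs0S a, hnotT a ha⟩) (convexHull_mono ?_ hq)
    rintro p ⟨b, hb, hba, rfl⟩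
    refine ⟨?_, ?_⟩
    · exact_mod_cast Finset.mem_sdiff.mpr ⟨hs0S b, hnotT b hb⟩
    · intro h
      exact hba (hinj h)
  obtain ⟨d, hd⟩ := exists_codes s hx τ hcp'
  exact ⟨d, s0, s, hinj, hmem, fun a b c => orient_shear ε _ _ _, hd⟩

/-- the injection into codes -/
theorem exists_injection {K n : ℕ} (hn : 0 < n) :
    ∃ F : Quotient (orderTypeSetoid (K + 1) n) → Code K n, Function.Injective F := by
  have h : ∀ x : Quotient (orderTypeSetoid (K + 1) n), ∃ d : Code K n, Coded x.out.1 d :=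
    fun x => exists_coded hn _ x.out.2.1 x.out.2.2
  choose F hF using h
  refine ⟨F, fun x y hxy => ?_⟩
  have h1 := hF x
  have h2 := hF y
  rw [← hxy] at h2
  have h3 : SameOrderType x.out.1 y.out.1 := same_of_coded h1 h2
  rw [← Quotient.out_eq x, ← Quotient.out_eq y]
  exact Quotient.sound h3

/-- last component of codes -/
abbrev Tail (K n : ℕ) : Type :=
  Fin K → (Fin n → Key) × (Key → Bool) × (Key → Finset (Fin n))

/-- third component of codes -/
abbrev Mid (K n : ℕ) : Type := Fin K → Fin K → Fin n → SignType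

theorem finite_tail (K n : ℕ) : Finite (Tail K n) := inferInstance

theorem finite_mid (K n : ℕ) : Finite (Mid K n) := inferInstance

theorem finite_code (K n : ℕ) : Finite (Code K n) := by
  have h1 := finite_tail K n
  have h2 := finite_mid K n
  have h3 : Finite (Mid K n × Tail K n) := @Finite.instProd _ _ h2 h1
  have h4 : Finite ((Fin n → Bool) × Mid K n × Tail K n) := @Finite.instProd _ _ inferInstance h3
  exact @Finite.instProd _ _ inferInstance h4

theorem card_tail (K n : ℕ) : Nat.card (Tail K n) = (8 ^ n * (2 ^ 8 * (2 ^ n) ^ 8)) ^ K := by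
  rw [Nat.card_eq_fintype_card]
  simp only [Key, Fintype.card_prod, Fintype.card_fun, Fintype.card_fin, Fintype.card_bool,
    Fintype.card_finset, Nat.reduceMul]

theorem card_mid (K n : ℕ) : Nat.card (Mid K n) = ((3 ^ n) ^ K) ^ K := by
  have h3 : Fintype.card SignType = 3 := rfl
  rw [Nat.card_eq_fintype_card]
  simp only [Fintype.card_fun, Fintype.card_fin, h3]

theorem card_code (K n : ℕ) : Nat.card (Code K n)
    = n ^ K * (2 ^ n * (((3 ^ n) ^ K) ^ K * (8 ^ n * (2 ^ 8 * (2 ^ n) ^ 8)) ^ K)) := by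
  have e : Nat.card (Code K n) = Nat.card ((Fin K → Fin n) × (Fin n → Bool) × Mid K n × Tail K n) :=
    rfl
  rw [e, Nat.card_prod, Nat.card_prod, Nat.card_prod, card_tail, card_mid,
    Nat.card_eq_fintype_card, Nat.card_eq_fintype_card, Fintype.card_fun, Fintype.card_fun,
    Fintype.card_fin, Fintype.card_fin, Fintype.card_bool]

theorem finite_quot {k n : ℕ} (hk : 1 ≤ k) (hn : 0 < n) :
    Finite (Quotient (orderTypeSetoid k n)) := by
  obtain ⟨K, rfl⟩ : ∃ K, k = K + 1 := ⟨k - 1, by omega⟩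
  obtain ⟨F, hF⟩ := exists_injection (K := K) hn
  have := finite_code K n
  exact Finite.of_injective F hF

theorem upper_count {K n : ℕ} (hn : 0 < n) : c (K + 1) n
    ≤ n ^ K * (2 ^ n * (((3 ^ n) ^ K) ^ K * (8 ^ n * (2 ^ 8 * (2 ^ n) ^ 8)) ^ K)) := by
  obtain ⟨F, hF⟩ := exists_injection (K := K) hn
  have := finite_code K n
  rw [← card_code, c]
  exact Nat.card_le_card_of_injective F hF

/-- explicit upper bound -/
theorem upper_two {K n : ℕ} (hn : 0 < n) : c (K + 1) n ≤ 2 ^ ((1 + 20 * K + 2 * K ^ 2) * n) := by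
  refine (upper_count hn).trans ?_
  have h1 : n ^ K ≤ 2 ^ (K * n) := by
    rw [mul_comm, pow_mul]
    exact Nat.pow_le_pow_left Nat.lt_two_pow_self.le K
  have h2 : ((3 ^ n) ^ K) ^ K ≤ 2 ^ (2 * K ^ 2 * n) := by
    rw [← pow_mul, ← pow_mul]
    calc 3 ^ (n * (K * K)) ≤ 4 ^ (n * (K * K)) := Nat.pow_le_pow_left (by norm_num) _
      _ = 2 ^ (2 * K ^ 2 * n) := by
        rw [show (4 : ℕ) = 2 ^ 2 by norm_num, ← pow_mul]; congr 1; ring
  have h3 : (8 ^ n * (2 ^ 8 * (2 ^ n) ^ 8)) ^ K ≤ 2 ^ (19 * K * n) := by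
    have : 8 ^ n * (2 ^ 8 * (2 ^ n) ^ 8) ≤ 2 ^ (19 * n) := by
      have e8 : (8 : ℕ) ^ n = 2 ^ (3 * n) := by
        rw [show (8 : ℕ) = 2 ^ 3 by norm_num, ← pow_mul]
      rw [e8, ← pow_mul, ← pow_add, ← pow_add]
      apply Nat.pow_le_pow_right (by norm_num)
      omega
    calc (8 ^ n * (2 ^ 8 * (2 ^ n) ^ 8)) ^ K ≤ (2 ^ (19 * n)) ^ K := Nat.pow_le_pow_left this K
      _ = 2 ^ (19 * K * n) := by rw [← pow_mul]; congr 1; ring
  calc n ^ K * (2 ^ n * (((3 ^ n) ^ K) ^ K * (8 ^ n * (2 ^ 8 * (2 ^ n) ^ 8)) ^ K))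
      ≤ 2 ^ (K * n) * (2 ^ n * (2 ^ (2 * K ^ 2 * n) * 2 ^ (19 * K * n))) :=
        Nat.mul_le_mul h1 (Nat.mul_le_mul le_rfl (Nat.mul_le_mul h2 h3))
    _ = 2 ^ ((1 + 20 * K + 2 * K ^ 2) * n) := by
        rw [← pow_add, ← pow_add, ← pow_add]; congr 1; ring

theorem lower_two {k n : ℕ} (hk : 2 ≤ k) (hn : 2 ≤ n) : 2 ^ (n - 1) ≤ 2 * n ^ 2 * c k n := by
  obtain ⟨m, rfl⟩ : ∃ m, n = m + 1 := ⟨n - 1, by omega⟩
  have := lower_count (m := m) (by omega) k hk (finite_quot (by omega) (by omega))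
  simpa using this

open Asymptotics Filter in
/-- the order of growth -/
theorem theta {k : ℕ} (hk : 2 ≤ k) :
    (fun n : ℕ => Real.log (c k n)) =Θ[atTop] (fun n : ℕ => (n : ℝ)) := by
  obtain ⟨K, rfl⟩ : ∃ K, k = K + 1 := ⟨k - 1, by omega⟩
  have hl2 := Real.log_two_gt_d9
  have hl2' := Real.log_two_lt_d9
  constructor
  · apply IsBigO.of_bound ((1 + 20 * K + 2 * K ^ 2 : ℕ) : ℝ)
    filter_upwards [eventually_ge_atTop 2] with n hn
    rw [Real.norm_of_nonneg (Real.log_natCast_nonneg _), Real.norm_of_nonneg (Nat.cast_nonneg n)]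
    have h1 := upper_two (K := K) (n := n) (by omega)
    have hpos : 0 < c (K + 1) n := by
      have := lower_two (k := K + 1) hk hn
      rcases Nat.eq_zero_or_pos (c (K + 1) n) with h | h
      · rw [h, mul_zero] at this
        have h2 : 0 < 2 ^ (n - 1) := by positivity
        omega
      · exact h
    have h2 : Real.log (c (K + 1) n) ≤ Real.log ((2 : ℝ) ^ ((1 + 20 * K + 2 * K ^ 2) * n)) := by
      apply Real.log_le_log (by exact_mod_cast hpos)
      exact_mod_cast h1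
    rw [Real.log_pow] at h2
    refine h2.trans ?_
    have h3 : (0 : ℝ) ≤ (((1 + 20 * K + 2 * K ^ 2) * n : ℕ) : ℝ) := Nat.cast_nonneg _
    calc (((1 + 20 * K + 2 * K ^ 2) * n : ℕ) : ℝ) * Real.log 2
        ≤ (((1 + 20 * K + 2 * K ^ 2) * n : ℕ) : ℝ) * 1 :=
          mul_le_mul_of_nonneg_left (by linarith) h3
      _ = ((1 + 20 * K + 2 * K ^ 2 : ℕ) : ℝ) * n := by rw [mul_one]; push_cast; ring
  · apply IsBigO.of_bound (4 : ℝ)
    have hlog : ∀ᶠ n : ℕ in atTop, ‖Real.log (n : ℝ)‖ ≤ (1 / 16 : ℝ) * ‖(n : ℝ)‖ := by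
      have h := Real.isLittleO_log_id_atTop.def (show (0 : ℝ) < 1 / 16 by norm_num)
      exact tendsto_natCast_atTop_atTop.eventually h
    filter_upwards [eventually_ge_atTop 8, hlog] with n hn hln
    rw [Real.norm_of_nonneg (Real.log_natCast_nonneg _), Real.norm_of_nonneg (Nat.cast_nonneg n)]
      at hln ⊢
    have hn0 : (0 : ℝ) < n := by exact_mod_cast (show 0 < n by omega)
    have hn8 : (8 : ℝ) ≤ n := by exact_mod_cast hn
    have h1 := lower_two (k := K + 1) hk (show 2 ≤ n by omega)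
    have hpos : 0 < c (K + 1) n := by
      rcases Nat.eq_zero_or_pos (c (K + 1) n) with h | h
      · rw [h, mul_zero] at h1
        have h2 : 0 < 2 ^ (n - 1) := by positivity
        omega
      · exact h
    have hc0 : (0 : ℝ) < c (K + 1) n := by exact_mod_cast hpos
    have h2 : (2 : ℝ) ^ (n - 1) ≤ 2 * (n : ℝ) ^ 2 * c (K + 1) n := by exact_mod_cast h1
    have h3 := Real.log_le_log (by positivity) h2
    rw [Real.log_pow, Real.log_mul (by positivity) hc0.ne', Real.log_mul (by norm_num)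
      (by positivity), Real.log_pow, Nat.cast_sub (by omega)] at h3
    push_cast at h3
    have h4 : ((n : ℝ) - 2) * (1 / 2) ≤ ((n : ℝ) - 2) * Real.log 2 :=
      mul_le_mul_of_nonneg_left (by linarith) (by linarith)
    linarith

end

end Pool.Agent.X234.OT
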