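import Pool.Agent.X234.OT.Defs

/-!
# Upper bound: a configuration with few deletions to convex position has a short code
-/

namespace Pool.Agent.X234.OT

open Classical

noncomputable section

/-! ### order lemmas -/

/-- strictly monotone or strictly antitone on a set, according to a bit -/
def MonoB {α : Type*} [Preorder α] {n : ℕ} (d : Bool) (f : Fin n → α) (F : Set (Fin n)) : Prop :=
  (d = true → StrictMonoOn f F) ∧ (d = false → StrictAntiOn f F)

theorem recover_mono {n : ℕ} {F : Set (Fin n)} {d : Bool} {ρ ρ' : Fin n → Fin n}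
    (h : MonoB d ρ F) (h' : MonoB d ρ' F) (hR : ρ '' F = ρ' '' F) : ∀ a ∈ F, ρ a = ρ' a := by
  have hr : Set.range (fun x : F => ρ x.1) = Set.range (fun x : F => ρ' x.1) := by
    have e1 : Set.range (fun x : F => ρ x.1) = ρ '' F := by
      ext y; constructor
      · rintro ⟨x, hx⟩; exact ⟨x.1, x.2, hx⟩
      · rintro ⟨x, hx, hy⟩; exact ⟨⟨x, hx⟩, hy⟩
    have e2 : Set.range (fun x : F => ρ' x.1) = ρ' '' F := by
      ext y; constructor
      · rintro ⟨x, hx⟩; exact ⟨x.1, x.2, hx⟩
      · rintro ⟨x, hx, hy⟩; exact ⟨⟨x, hx⟩, hy⟩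
    rw [e1, e2, hR]
  cases d with
  | true =>
    have m1 : StrictMono (fun x : F => ρ x.1) := fun x y hxy => h.1 rfl x.2 y.2 hxy
    have m2 : StrictMono (fun x : F => ρ' x.1) := fun x y hxy => h'.1 rfl x.2 y.2 hxy
    have := (StrictMono.range_inj m1 m2).mp hr
    intro a ha
    exact congrFun this ⟨a, ha⟩
  | false =>
    have m1 : StrictMono (fun x : F => OrderDual.toDual (ρ x.1)) :=
      fun x y hxy => h.2 rfl x.2 y.2 hxy
    have m2 : StrictMono (fun x : F => OrderDual.toDual (ρ' x.1)) :=
      fun x y hxy => h'.2 rfl x.2 y.2 hxy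
    have hr' : Set.range (fun x : F => OrderDual.toDual (ρ x.1))
        = Set.range (fun x : F => OrderDual.toDual (ρ' x.1)) := by
      have e1 : Set.range (fun x : F => OrderDual.toDual (ρ x.1))
          = OrderDual.toDual '' Set.range (fun x : F => ρ x.1) := by
        rw [← Set.range_comp]; rfl
      have e2 : Set.range (fun x : F => OrderDual.toDual (ρ' x.1))
          = OrderDual.toDual '' Set.range (fun x : F => ρ' x.1) := by
        rw [← Set.range_comp]; rfl
      rw [e1, e2, hr]
    have := (StrictMono.range_inj m1 m2).mp hr'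
    intro a ha
    exact OrderDual.toDual.injective (congrFun this ⟨a, ha⟩)

/-- every real function on `Fin n` has the same strict comparisons as a function to `Fin n` -/
theorem exists_rank {n : ℕ} (f : Fin n → ℝ) :
    ∃ ρ : Fin n → Fin n, ∀ a b, ρ a < ρ b ↔ f a < f b := by
  have hlt : ∀ a : Fin n, ((Finset.univ : Finset (Fin n)).filter (fun b => f b < f a)).card < n := by
    intro a
    have h1 : ((Finset.univ : Finset (Fin n)).filter (fun b => f b < f a)) ⊂ Finset.univ := by
      rw [Finset.ssubset_univ_iff]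
      intro h
      have : a ∈ ((Finset.univ : Finset (Fin n)).filter (fun b => f b < f a)) := by
        rw [h]; exact Finset.mem_univ _
      rw [Finset.mem_filter] at this
      exact lt_irrefl _ this.2
    have h2 := Finset.card_lt_card h1
    rwa [Finset.card_univ, Fintype.card_fin] at h2
  refine ⟨fun a => ⟨_, hlt a⟩, fun a b => ?_⟩
  rw [Fin.mk_lt_mk]
  constructor
  · intro h
    by_contra hcon
    push Not at hcon
    apply absurd h
    rw [not_lt]
    apply Finset.card_le_card
    intro x hx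
    rw [Finset.mem_filter] at hx ⊢
    exact ⟨hx.1, hx.2.trans_le hcon⟩
  · intro h
    apply Finset.card_lt_card
    rw [Finset.ssubset_iff_of_subset]
    · refine ⟨a, ?_, ?_⟩
      · rw [Finset.mem_filter]; exact ⟨Finset.mem_univ _, h⟩
      · rw [Finset.mem_filter]; rintro ⟨-, h'⟩; exact lt_irrefl _ h'
    · intro x hx
      rw [Finset.mem_filter] at hx ⊢
      exact ⟨hx.1, hx.2.trans h⟩

/-- a strictly quasi-concave function splits into an increasing and a decreasing part -/
theorem split_concave {n : ℕ} (C : Set (Fin n)) (f : Fin n → ℝ)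
    (h : ∀ a ∈ C, ∀ b ∈ C, ∀ c ∈ C, a < b → b < c → f b ≤ f a → f b ≤ f c → False) :
    ∃ u : Fin n → Bool, ∀ t, MonoB t f {a | a ∈ C ∧ u a = t} := by
  by_cases hne : C.Nonempty
  · obtain ⟨m, hmC, hm⟩ := (Set.toFinite C).exists_maximalFor f C hne
    have hmax : ∀ a ∈ C, f a ≤ f m := by
      intro a ha
      by_contra hcon
      push Not at hcon
      exact absurd (hm ha hcon.le) (not_le.mpr hcon)
    set A : Set (Fin n) := {a | a ∈ C ∧ f a = f m} with hA
    have hAne : A.Nonempty := ⟨m, hmC, rfl⟩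
    obtain ⟨s, hsA, hs⟩ := (Set.toFinite A).exists_minimalFor id A hAne
    have hmin : ∀ a ∈ A, s ≤ a := by
      intro a ha
      by_contra hcon
      push Not at hcon
      exact absurd (hs ha hcon.le) (not_le.mpr hcon)
    have hsC : s ∈ C := hsA.1
    have hfs : f s = f m := hsA.2
    have hlt : ∀ a ∈ C, a < s → f a < f s := by
      intro a ha has
      rcases lt_or_eq_of_le (hmax a ha) with h1 | h1
      · rw [hfs]; exact h1
      · exact absurd (hmin a ⟨ha, h1⟩) (not_le.mpr has)
    refine ⟨fun a => decide (a ≤ s), ?_⟩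
    intro t
    constructor
    · rintro rfl a ⟨haC, ha⟩ b ⟨hbC, hb⟩ hab
      simp only [decide_eq_true_eq] at ha hb
      rcases lt_or_eq_of_le hb with hb' | hb'
      · by_contra hcon
        push Not at hcon
        exact h a haC b hbC s hsC hab hb' hcon (hlt b hbC hb').le
      · rw [hb']; exact hlt a haC (hb' ▸ hab)
    · rintro rfl a ⟨haC, ha⟩ b ⟨hbC, hb⟩ hab
      simp only [decide_eq_false_iff_not, not_le] at ha hb
      by_contra hcon
      push Not at hcon
      refine h s hsC a haC b hbC ha hab ?_ hcon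
      rw [hfs]; exact hmax a haC
  · refine ⟨fun _ => true, fun t => ?_⟩
    rw [Set.not_nonempty_iff_eq_empty] at hne
    subst hne
    constructor
    · rintro - a ⟨ha, -⟩; exact absurd ha (Set.notMem_empty _)
    · rintro - a ⟨ha, -⟩; exact absurd ha (Set.notMem_empty _)

theorem split_either {n : ℕ} (C : Set (Fin n)) (f : Fin n → ℝ)
    (h : (∀ a ∈ C, ∀ b ∈ C, ∀ c ∈ C, a < b → b < c → f b ≤ f a → f b ≤ f c → False) ∨
      (∀ a ∈ C, ∀ b ∈ C, ∀ c ∈ C, a < b → b < c → f a ≤ f b → f c ≤ f b → False)) :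
    ∃ u : Fin n → Bool, ∃ D : Bool → Bool, ∀ t, MonoB (D t) f {a | a ∈ C ∧ u a = t} := by
  rcases h with h | h
  · obtain ⟨u, hu⟩ := split_concave C f h
    exact ⟨u, id, hu⟩
  · obtain ⟨u, hu⟩ := split_concave C (fun a => - f a) (by
      intro a ha b hb c hc hab hbc h1 h2
      exact h a ha b hb c hc hab hbc (by linarith) (by linarith))
    refine ⟨u, fun t => !t, fun t => ?_⟩
    obtain ⟨h1, h2⟩ := hu t
    constructor
    · intro ht a ha b hb hab
      have : t = false := by cases t <;> simp_all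
      have := h2 this ha hb hab
      linarith
    · intro ht a ha b hb hab
      have : t = true := by cases t <;> simp_all
      have := h1 this ha hb hab
      linarith

/-! ### geometry lemmas -/

/-- the point above `b` on the chord `a c` -/
theorem chord_mem {P : Set (ℝ × ℝ)} (hP : Convex ℝ P) {a b c : ℝ × ℝ} (ha : a ∈ P) (hc : c ∈ P)
    (hab : a.1 < b.1) (hbc : b.1 < c.1) :
    (b.1, b.2 + det3 a b c / (c.1 - a.1)) ∈ P := by
  have hac : 0 < c.1 - a.1 := by linarith
  have hmem := hP ha hc (a := (c.1 - b.1) / (c.1 - a.1)) (b := (b.1 - a.1) / (c.1 - a.1))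
    (div_nonneg (by linarith) hac.le) (div_nonneg (by linarith) hac.le)
    (by field_simp; ring)
  convert hmem using 1
  ext
  · simp only [Prod.fst_add, Prod.smul_fst, smul_eq_mul]
    field_simp
    ring
  · simp only [Prod.snd_add, Prod.smul_snd, smul_eq_mul, det3]
    field_simp
    ring

/-- convex position forces the orientation of `a b c` to depend only on the middle point -/
theorem cp_sign {P : Set (ℝ × ℝ)} {b : ℝ × ℝ} (hb : b ∉ convexHull ℝ P) {a c a' c' : ℝ × ℝ}
    (ha : a ∈ P) (hc : c ∈ P) (ha' : a' ∈ P) (hc' : c' ∈ P)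
    (hab : a.1 < b.1) (hbc : b.1 < c.1) (hab' : a'.1 < b.1) (hbc' : b.1 < c'.1)
    (h : 0 ≤ det3 a b c) (h' : det3 a' b c' ≤ 0) : False := by
  have hconv := convex_convexHull ℝ P
  have hsub := subset_convexHull ℝ P
  have m1 := chord_mem hconv (hsub ha) (hsub hc) hab hbc
  have m2 := chord_mem hconv (hsub ha') (hsub hc') hab' hbc'
  set u := det3 a b c / (c.1 - a.1) with hu
  set v := det3 a' b c' / (c'.1 - a'.1) with hv
  have hu0 : 0 ≤ u := div_nonneg h (by linarith)
  have hv0 : v ≤ 0 := div_nonpos_of_nonpos_of_nonneg h' (by linarith)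
  rcases eq_or_lt_of_le hu0 with hu1 | hu1
  · apply hb
    rw [← hu1] at m1
    simpa using m1
  · have huv : 0 < u - v := by linarith
    have hmem := hconv m1 m2 (a := (-v) / (u - v)) (b := u / (u - v))
      (div_nonneg (by linarith) huv.le) (div_nonneg (by linarith) huv.le)
      (by field_simp; ring)
    apply hb
    convert hmem using 1
    ext
    · simp only [Prod.fst_add, Prod.smul_fst, smul_eq_mul]
      field_simp
      ring
    · simp only [Prod.snd_add, Prod.smul_snd, smul_eq_mul]
      field_simp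
      ring

/-- slope of the line from `q` to `a` -/
def slp (q a : ℝ × ℝ) : ℝ := (a.2 - q.2) / (a.1 - q.1)

theorem det3_slp {q a b : ℝ × ℝ} (ha : a.1 - q.1 ≠ 0) (hb : b.1 - q.1 ≠ 0) :
    det3 q a b = (a.1 - q.1) * (b.1 - q.1) * (slp q b - slp q a) := by
  unfold det3 slp
  field_simp

theorem det3_tri {q a b c : ℝ × ℝ} (ha : a.1 - q.1 ≠ 0) (hb : b.1 - q.1 ≠ 0) (hc : c.1 - q.1 ≠ 0) :
    det3 a b c = (slp q a - slp q b) * ((a.1 - q.1) * (c.1 - b.1))
      + (slp q c - slp q b) * ((c.1 - q.1) * (b.1 - a.1)) := by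
  unfold det3 slp
  field_simp
  ring

/-- quasi-concavity / quasi-convexity of the slope on one side -/
theorem slp_quasi {q a b c : ℝ × ℝ} (hab : a.1 < b.1) (hbc : b.1 < c.1)
    {σ ℓ : Bool} (hσ : (σ = true → q.1 < a.1) ∧ (σ = false → c.1 < q.1))
    (hℓ : (ℓ = true → 0 < det3 a b c) ∧ (ℓ = false → det3 a b c < 0)) :
    (σ = ℓ → slp q a ≤ slp q b → slp q c ≤ slp q b → False) ∧
    (σ ≠ ℓ → slp q b ≤ slp q a → slp q b ≤ slp q c → False) := by
  have h1 : 0 < c.1 - b.1 := by linarith
  have h2 : 0 < b.1 - a.1 := by linarith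
  cases σ with
  | true =>
    have hqa := hσ.1 rfl
    have e := det3_tri (q := q) (a := a) (b := b) (c := c) (by linarith) (by linarith) (by linarith)
    have p1 : 0 < (a.1 - q.1) * (c.1 - b.1) := mul_pos (by linarith) h1
    have p2 : 0 < (c.1 - q.1) * (b.1 - a.1) := mul_pos (by linarith) h2
    cases ℓ with
    | true =>
      have hd := hℓ.1 rfl
      refine ⟨fun _ ha hc => ?_, fun h => absurd rfl h⟩
      nlinarith [mul_nonneg (sub_nonneg.mpr ha) p1.le, mul_nonneg (sub_nonneg.mpr hc) p2.le]
    | false =>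
      have hd := hℓ.2 rfl
      refine ⟨fun h => absurd h (by decide), fun _ ha hc => ?_⟩
      nlinarith [mul_nonneg (sub_nonneg.mpr ha) p1.le, mul_nonneg (sub_nonneg.mpr hc) p2.le]
  | false =>
    have hqc := hσ.2 rfl
    have e := det3_tri (q := q) (a := a) (b := b) (c := c) (by linarith) (by linarith) (by linarith)
    have p1 : 0 < (q.1 - a.1) * (c.1 - b.1) := mul_pos (by linarith) h1
    have p2 : 0 < (q.1 - c.1) * (b.1 - a.1) := mul_pos (by linarith) h2
    cases ℓ with
    | true =>
      have hd := hℓ.1 rfl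
      refine ⟨fun h => absurd h (by decide), fun _ ha hc => ?_⟩
      nlinarith [mul_nonneg (sub_nonneg.mpr ha) p1.le, mul_nonneg (sub_nonneg.mpr hc) p2.le]
    | false =>
      have hd := hℓ.2 rfl
      refine ⟨fun _ ha hc => ?_, fun h => absurd rfl h⟩
      nlinarith [mul_nonneg (sub_nonneg.mpr ha) p1.le, mul_nonneg (sub_nonneg.mpr hc) p2.le]

end

end Pool.Agent.X234.OT
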